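import Mathlib

/-!
# Numbers of the thin steep class theorem (sec. 4 of helper90's page): finitely many radii

`num_rad` : the thresholds `th`, the radii `V j = 1 - j / (N + 1)`, and the precisions `X j k` which satisfy
the inequalities of the recursion.
-/

namespace Pool.TSA

open Classical in
/-- Numbers of the radii: thresholds `(8 Sb)^-(k+1)`, `X j k` = next entry + what was lost + a bonus below the
threshold of `k` - a margin. -/
theorem num_rad (r : ℕ) (Sb : ℝ) (hSb : 1 ≤ Sb) : ∃ th : ℝ, 0 < th ∧ th ≤ 1 ∧ ∀ gam : ℝ, 0 < gam →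
    ∃ (h0 del0 eps0 : ℝ) (N : ℕ) (V : ℕ → ℝ), 0 < h0 ∧ 0 < del0 ∧ 0 < eps0 ∧ V 0 = 1 ∧
    (∀ j ≤ N, 0 < V j ∧ V j ≤ 1) ∧ (∀ j < N, V (j+1) ≤ V j) ∧
    ∀ {ct : ℕ → Prop} {i : ℕ} {q : ℝ} {Dl : ℕ → ℝ} {t : ℕ → ℕ → ℝ}, i ≤ r → 0 < q →
    (∀ l ≤ i, q ≤ Dl l) →
    (∀ l < i, ct l → ∀ j ≤ N, Dl l + 2 * (V j * q) ≤ t l j + eps0 * q ∧
      t l j ≤ Dl l + Sb * (V j * q) + eps0 * q) →
    (∀ l ≤ i, (l = i ∨ ct l) → (∀ j < N, t l (j+1) + (V j - V (j+1)) * q ≤ t l j) ∧
      Dl l + V N * q ≤ t l N) →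
    (∀ j ≤ N, th ≤ V j → Dl i + V j * q + gam * q ≤ t i j) →
    ∃ X : ℕ → ℕ → ℝ,
    (∀ j ≤ N, ∀ k ≤ i, (k = i ∨ ct k) → 0 ≤ X j k) ∧
    (∀ j ≤ N, ∀ k ≤ i, (k = i ∨ ct k) → ∀ l < k, ct l →
      X j k + t l j + del0 * q ≤ t l 0 + (if j + 1 ≤ N then t k (j+1) else Dl k + V N * q)) ∧
    (∀ j ≤ N, ∀ k ≤ i, (k = i ∨ ct k) → ∀ l < k, ct l → ∀ j' < j,
      X j k + t l j + del0 * q ≤ X j' l + (if j + 1 ≤ N then t k (j+1) else Dl k + V N * q)) ∧
    (∀ j ≤ N, Dl i + q + h0 * q + del0 * q ≤ X j i) ∧ Dl i + q + h0 * q + del0 * q ≤ t i 0 := by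
  -- thresholds
  set a : ℝ := 1 / (8 * Sb) with ha
  have hSb0 : 0 < Sb := by linarith
  have ha0 : 0 < a := by positivity
  have ha8 : 8 * Sb * a = 1 := by rw [ha]; field_simp
  have ha1 : a ≤ 1 / 8 := by
    rw [ha]
    exact one_div_le_one_div_of_le (by norm_num) (by linarith)
  have haS : Sb * a = 1 / 8 := by linarith
  have tk0 : ∀ k : ℕ, 0 < a ^ (k + 1) := fun k => pow_pos ha0 _
  have tka : ∀ k : ℕ, a ^ (k + 1) ≤ a := by
    intro k
    have := pow_le_one₀ (n := k) ha0.le (by linarith : a ≤ 1)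
    calc a ^ (k + 1) = a ^ k * a := pow_succ _ _
      _ ≤ 1 * a := mul_le_mul_of_nonneg_right this ha0.le
      _ = a := one_mul _
  have tkm : ∀ k l : ℕ, l ≤ k → a ^ (k + 1) ≤ a ^ (l + 1) := fun k l h =>
    pow_le_pow_of_le_one ha0.le (by linarith) (by omega)
  have tk8 : ∀ k l : ℕ, l < k → 8 * Sb * a ^ (k + 1) ≤ a ^ (l + 1) := by
    intro k l h
    have h1 : a ^ (k + 1) = a * a ^ k := by rw [pow_succ]; ring
    have h2 : a ^ k ≤ a ^ (l + 1) := pow_le_pow_of_le_one ha0.le (by linarith) (by omega)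
    calc 8 * Sb * a ^ (k + 1) = (8 * Sb * a) * a ^ k := by rw [h1]; ring
      _ = a ^ k := by rw [ha8, one_mul]
      _ ≤ _ := h2
  refine ⟨a ^ (r + 1) / 2, by have := tk0 r; linarith, by have := tka r; linarith, ?_⟩
  intro gam hgam
  -- the step
  have hr0 : (0 : ℝ) < 2 * r + 4 := by positivity
  obtain ⟨N, hN⟩ := exists_nat_one_div_lt
    (show (0 : ℝ) < min (a ^ (r + 1) / 2) (gam / 2) / (2 * r + 4) from
      div_pos (lt_min (by have := tk0 r; linarith) (by linarith)) hr0)
  set s : ℝ := 1 / ((N : ℝ) + 1) with hs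
  have hs0 : 0 < s := by positivity
  have hsN : s * ((N : ℝ) + 1) = 1 := by rw [hs]; field_simp
  have hs1 : (2 * (r : ℝ) + 4) * s < min (a ^ (r + 1) / 2) (gam / 2) := by
    rw [lt_div_iff₀ hr0] at hN
    linarith
  have hsa : (2 * (r : ℝ) + 4) * s < a ^ (r + 1) / 2 := lt_of_lt_of_le hs1 (min_le_left _ _)
  have hsg : (2 * (r : ℝ) + 4) * s < gam / 2 := lt_of_lt_of_le hs1 (min_le_right _ _)
  have hr : (0 : ℝ) ≤ r := Nat.cast_nonneg r
  have hsr : 4 * s ≤ (2 * (r : ℝ) + 4) * s := by nlinarith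
  have hcr : 0 < Sb * a ^ (r + 1) := mul_pos hSb0 (tk0 r)
  have hcr1 : a ^ (r + 1) ≤ Sb * a ^ (r + 1) := by
    have := mul_le_mul_of_nonneg_right hSb (tk0 r).le
    linarith
  refine ⟨min gam (2 * Sb * a ^ (r + 1)) / 2, s, a ^ (r + 1) / 4, N, fun j => 1 - j * s,
    by have := lt_min hgam (show 0 < 2 * Sb * a ^ (r + 1) by linarith); linarith,
    hs0, by have := tk0 r; linarith, by simp, ?_, ?_, ?_⟩
  · intro j hj
    have hj' : (j : ℝ) ≤ N := by exact_mod_cast hj
    have : (j : ℝ) * s ≤ N * s := mul_le_mul_of_nonneg_right hj' hs0.le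
    have hj0 : (0 : ℝ) ≤ j * s := by positivity
    constructor
    · show 0 < 1 - (j : ℝ) * s
      nlinarith
    · show 1 - (j : ℝ) * s ≤ 1
      linarith
  · intro j _
    show 1 - ((j + 1 : ℕ) : ℝ) * s ≤ 1 - (j : ℝ) * s
    push_cast
    linarith
  intro ct i q Dl t hir hq hDl hb hm ht
  set V : ℕ → ℝ := fun j => 1 - (j : ℝ) * s with hV
  have hVs : ∀ j, V (j + 1) = V j - s := by
    intro j; simp only [hV]; push_cast; ring
  have hV0 : V 0 = 1 := by simp [hV]
  have hVN : V N = s := by simp only [hV]; linarith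
  have hVpos : ∀ j ≤ N, s ≤ V j := by
    intro j hj
    have hj' : (j : ℝ) ≤ N := by exact_mod_cast hj
    have : (j : ℝ) * s ≤ N * s := mul_le_mul_of_nonneg_right hj' hs0.le
    simp only [hV]; linarith
  have hV1 : ∀ j, V j ≤ 1 := by
    intro j
    have hj0 : (0 : ℝ) ≤ j * s := by positivity
    simp only [hV]; linarith
  -- telescoping
  have tele : ∀ l ≤ i, (l = i ∨ ct l) → ∀ d j : ℕ, j + d ≤ N → t l (j + d) + (V j - V (j + d)) * q ≤ t l j := by
    intro l hl hc d
    induction d with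
    | zero => intro j _; simp
    | succ d ih =>
      intro j hj
      have h1 := ih j (by omega)
      have h2 := (hm l hl hc).1 (j + d) (by omega)
      have e : j + (d + 1) = j + d + 1 := by omega
      rw [e]
      nlinarith
  have tel : ∀ l ≤ i, (l = i ∨ ct l) → ∀ j j' : ℕ, j ≤ j' → j' ≤ N → t l j' + (V j - V j') * q ≤ t l j := by
    intro l hl hc j j' h1 h2
    have := tele l hl hc (j' - j) j (by omega)
    rwa [show j + (j' - j) = j' by omega] at this
  have low : ∀ l ≤ i, (l = i ∨ ct l) → ∀ j ≤ N, Dl l + V j * q ≤ t l j := by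
    intro l hl hc j hj
    have h1 := tel l hl hc j N hj le_rfl
    have h2 := (hm l hl hc).2
    linarith
  set Tn : ℕ → ℕ → ℝ := fun j k => if j + 1 ≤ N then t k (j + 1) else Dl k + V N * q with hTn
  have hTlow : ∀ k ≤ i, (k = i ∨ ct k) → ∀ j ≤ N, Dl k + (V j - s) * q ≤ Tn j k := by
    intro k hk hc j hj
    simp only [hTn]
    split_ifs with h
    · have := low k hk hc (j + 1) h
      rw [hVs] at this
      exact this
    · have e : j = N := by omega
      have : 0 ≤ s * q := by positivity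
      rw [e]; linarith
  set Y : ℕ → ℕ → ℝ := fun j k => if V j ≤ a ^ (k + 1) then 2 * Sb * a ^ (k + 1) else 0 with hY
  have hY0 : ∀ j k, 0 ≤ Y j k := by
    intro j k
    simp only [hY]
    split_ifs
    · have := tk0 k; positivity
    · exact le_rfl
  have hks : ∀ k : ℕ, k ≤ i → (k : ℝ) ≤ r := fun k hk => by exact_mod_cast hk.trans hir
  refine ⟨fun j k => Tn j k + (1 - V j) * q + Y j k * q - 2 * ((k : ℝ) + 1) * s * q, ?_, ?_, ?_, ?_, ?_⟩
  · intro j hj k hk hc
    show 0 ≤ Tn j k + (1 - V j) * q + Y j k * q - 2 * ((k : ℝ) + 1) * s * q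
    have h1 := hTlow k hk hc j hj
    have h2 := hDl k hk
    have h3 : 0 ≤ Y j k * q := mul_nonneg (hY0 j k) hq.le
    have h4 : 2 * ((k : ℝ) + 1) * s * q ≤ (2 * (r : ℝ) + 4) * s * q - 2 * s * q := by
      have : 2 * ((k : ℝ) + 1) * (s * q) ≤ (2 * (r : ℝ) + 2) * (s * q) :=
        mul_le_mul_of_nonneg_right (by linarith [hks k hk]) (by positivity)
      nlinarith
    have h5 : (2 * (r : ℝ) + 4) * s * q ≤ 1 * q :=
      mul_le_mul_of_nonneg_right (by linarith [tka r]) hq.le
    have h6 : 0 ≤ s * q := by positivity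
    nlinarith
  · intro j hj k hk hc l hl hcl
    show Tn j k + (1 - V j) * q + Y j k * q - 2 * ((k : ℝ) + 1) * s * q + t l j + s * q ≤ t l 0 + Tn j k
    have hkr := hks k hk
    have hk0 : (0 : ℝ) ≤ k := Nat.cast_nonneg k
    have h6 : 0 ≤ s * q := by positivity
    have h7 : 0 ≤ (k : ℝ) * (s * q) := by positivity
    by_cases hy : V j ≤ a ^ (k + 1)
    · have hY' : Y j k = 2 * Sb * a ^ (k + 1) := by simp only [hY]; rw [if_pos hy]
      rw [hY']
      have hb0 := (hb l (by omega) hcl 0 (by omega)).1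
      have hbj := (hb l (by omega) hcl j hj).2
      rw [hV0] at hb0
      have hA : Sb * a ^ (k + 1) ≤ 1 / 8 := by
        have := mul_le_mul_of_nonneg_left (tka k) hSb0.le
        linarith
      have hB : Sb * V j ≤ 1 / 8 := le_trans (mul_le_mul_of_nonneg_left hy hSb0.le) hA
      have hC : a ^ (r + 1) ≤ 1 / 8 := (tka r).trans ha1
      have hVj : 0 ≤ V j := hs0.le.trans (hVpos j hj)
      have key : (1 - V j) + 2 * Sb * a ^ (k + 1) + Sb * V j + 2 * (a ^ (r + 1) / 4) ≤ 2 := by linarith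
      have key' := mul_le_mul_of_nonneg_right key hq.le
      nlinarith
    · have hY' : Y j k = 0 := by simp only [hY]; rw [if_neg hy]
      rw [hY']
      have := tel l (by omega) (Or.inr hcl) 0 j (by omega) hj
      rw [hV0] at this
      nlinarith
  · intro j hj k hk hc l hl hcl j' hj'
    show Tn j k + (1 - V j) * q + Y j k * q - 2 * ((k : ℝ) + 1) * s * q + t l j + s * q
      ≤ (Tn j' l + (1 - V j') * q + Y j' l * q - 2 * ((l : ℝ) + 1) * s * q) + Tn j k
    have hT' : Tn j' l = t l (j' + 1) := by simp only [hTn]; rw [if_pos (by omega)]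
    rw [hT']
    have hlk : (l : ℝ) + 1 ≤ k := by exact_mod_cast hl
    have h6 : 0 ≤ s * q := by positivity
    have h7 : 2 * ((l : ℝ) + 1) * s * q + 2 * (s * q) ≤ 2 * ((k : ℝ) + 1) * s * q := by
      have := mul_le_mul_of_nonneg_right hlk h6
      nlinarith
    have hte := tel l (by omega) (Or.inr hcl) (j' + 1) j (by omega) hj
    rw [hVs] at hte
    by_cases hy : V j ≤ a ^ (k + 1)
    · have hY' : Y j k = 2 * Sb * a ^ (k + 1) := by simp only [hY]; rw [if_pos hy]
      rw [hY']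
      by_cases hy' : V j' ≤ a ^ (l + 1)
      · have hY'' : Y j' l = 2 * Sb * a ^ (l + 1) := by simp only [hY]; rw [if_pos hy']
        rw [hY'']
        have hcc : 2 * Sb * a ^ (k + 1) * q ≤ 2 * Sb * a ^ (l + 1) * q :=
          mul_le_mul_of_nonneg_right
            (mul_le_mul_of_nonneg_left (tkm k l hl.le) (by positivity)) hq.le
        nlinarith
      · have hY'' : Y j' l = 0 := by simp only [hY]; rw [if_neg hy']
        rw [hY'']
        push Not at hy'
        have hbj' := (hb l (by omega) hcl (j' + 1) (by omega)).1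
        have hbj := (hb l (by omega) hcl j hj).2
        rw [hVs] at hbj'
        have hVj : 0 ≤ V j := hs0.le.trans (hVpos j hj)
        have h8 := tk8 k l hl
        have hB : Sb * V j ≤ Sb * a ^ (k + 1) := mul_le_mul_of_nonneg_left hy hSb0.le
        have hrk : a ^ (r + 1) ≤ a ^ (k + 1) := tkm r k (hk.trans hir)
        have hSk : a ^ (k + 1) ≤ Sb * a ^ (k + 1) := by
          have := mul_le_mul_of_nonneg_right hSb (tk0 k).le
          linarith
        have h4s : 4 * s ≤ a ^ (r + 1) / 2 := hsr.trans hsa.le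
        have h9 := tk0 k
        have key : (1 - V j) + 2 * Sb * a ^ (k + 1) + Sb * V j + 2 * (a ^ (r + 1) / 4)
            ≤ 2 * (V j' - s) + (1 - V j') + s := by linarith
        have key' := mul_le_mul_of_nonneg_right key hq.le
        nlinarith
    · have hY' : Y j k = 0 := by simp only [hY]; rw [if_neg hy]
      rw [hY']
      have := mul_nonneg (hY0 j' l) hq.le
      nlinarith
  · intro j hj
    show Dl i + q + min gam (2 * Sb * a ^ (r + 1)) / 2 * q + s * q
      ≤ Tn j i + (1 - V j) * q + Y j i * q - 2 * ((i : ℝ) + 1) * s * q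
    have hir' : (i : ℝ) ≤ r := hks i le_rfl
    have h6 : 0 ≤ s * q := by positivity
    have h4 : 2 * ((i : ℝ) + 1) * s * q + 2 * (s * q) ≤ (2 * (r : ℝ) + 4) * s * q := by
      have := mul_le_mul_of_nonneg_right hir' h6
      nlinarith
    by_cases hy : V j ≤ a ^ (i + 1)
    · have hY' : Y j i = 2 * Sb * a ^ (i + 1) := by simp only [hY]; rw [if_pos hy]
      rw [hY']
      have h1 := hTlow i le_rfl (Or.inl rfl) j hj
      have hmr : a ^ (r + 1) ≤ a ^ (i + 1) := tkm r i hir
      have hSm : Sb * a ^ (r + 1) ≤ Sb * a ^ (i + 1) := mul_le_mul_of_nonneg_left hmr hSb0.le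
      have h2 : min gam (2 * Sb * a ^ (r + 1)) / 2 ≤ Sb * a ^ (r + 1) := by
        have := min_le_right gam (2 * Sb * a ^ (r + 1)); linarith
      have key : min gam (2 * Sb * a ^ (r + 1)) / 2 + (2 * (r : ℝ) + 4) * s ≤ 2 * Sb * a ^ (i + 1) := by
        linarith
      have key' := mul_le_mul_of_nonneg_right key hq.le
      nlinarith
    · have hY' : Y j i = 0 := by simp only [hY]; rw [if_neg hy]
      rw [hY']
      push Not at hy
      have hmr : a ^ (r + 1) ≤ a ^ (i + 1) := tkm r i hir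
      have h4s : 4 * s ≤ a ^ (r + 1) / 2 := hsr.trans hsa.le
      have hjN : j + 1 ≤ N := by
        rcases Nat.lt_or_ge j N with h | h
        · exact h
        · exfalso
          have e : j = N := by omega
          rw [e, hVN] at hy
          linarith [tk0 r]
      have hT' : Tn j i = t i (j + 1) := by simp only [hTn]; rw [if_pos hjN]
      rw [hT']
      have h5 := ht (j + 1) hjN (by rw [hVs]; linarith)
      rw [hVs] at h5
      have h2 : min gam (2 * Sb * a ^ (r + 1)) / 2 ≤ gam / 2 := by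
        have := min_le_left gam (2 * Sb * a ^ (r + 1)); linarith
      have key : min gam (2 * Sb * a ^ (r + 1)) / 2 + (2 * (r : ℝ) + 4) * s ≤ gam := by
        linarith
      have key' := mul_le_mul_of_nonneg_right key hq.le
      nlinarith
  · have h5 := ht 0 (by omega) (by
      show a ^ (r + 1) / 2 ≤ V 0
      rw [hV0]; linarith [tka r])
    change Dl i + V 0 * q + gam * q ≤ t i 0 at h5
    rw [hV0] at h5
    have h2 : min gam (2 * Sb * a ^ (r + 1)) / 2 ≤ gam / 2 := by
      have := min_le_left gam (2 * Sb * a ^ (r + 1)); linarith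
    have key : min gam (2 * Sb * a ^ (r + 1)) / 2 + s ≤ gam := by linarith
    have key' := mul_le_mul_of_nonneg_right key hq.le
    show Dl i + q + min gam (2 * Sb * a ^ (r + 1)) / 2 * q + s * q ≤ t i 0
    nlinarith

end Pool.TSA
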